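import Pool.Agent.H28.CU.Stm

set_option autoImplicit false

namespace Pool.Agent.H28.CU.T91

theorem pow3_ge (m : ℕ) (hm : 8 ≤ m) : 4 * m * (2 * m + 1) ≤ 3 ^ m := by
  induction m, hm using Nat.le_induction with
  | base => norm_num
  | succ m hm ih =>
    rw [pow_succ]
    nlinarith

theorem pow2_ge (m : ℕ) (hm : 16 ≤ m) : 12 * m * (m + 1) ≤ 2 ^ m := by
  induction m, hm using Nat.le_induction with
  | base => norm_num
  | succ m hm ih =>
    rw [pow_succ]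
    nlinarith

theorem num2 : ∀ n N : ℕ, 144 ≤ N → 72 * N ^ 2 ≤ 2 ^ n →
    ∃ k t : ℕ, t = 2 ^ (k + 1) ∧ t + 2 ≤ n ∧ 6 * N ≤ 2 ^ t ∧ t * (t + 2) ≤ 2 * N := by
  intro n N hN hn
  classical
  have hex : ∃ k : ℕ, 6 * N ≤ 2 ^ 2 ^ (k + 1) := by
    refine ⟨6 * N, ?_⟩
    have h1 : 6 * N < 2 ^ (6 * N) := Nat.lt_two_pow_self
    have h2 : 6 * N < 2 ^ (6 * N + 1) := by
      rw [pow_succ]; omega
    have h3 : (2 : ℕ) ^ (6 * N + 1) < 2 ^ 2 ^ (6 * N + 1) := Nat.lt_two_pow_self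
    omega
  set k := Nat.find hex with hk
  have hk1 : 6 * N ≤ 2 ^ 2 ^ (k + 1) := Nat.find_spec hex
  have hmin : ∀ j, j < k → 2 ^ 2 ^ (j + 1) < 6 * N := by
    intro j hj
    have := Nat.find_min hex hj
    omega
  have hk3 : 3 ≤ k := by
    by_contra hlt
    have hle : k ≤ 2 := by omega
    have h1 : (2 : ℕ) ^ 2 ^ (k + 1) ≤ 2 ^ 2 ^ (2 + 1) :=
      Nat.pow_le_pow_right (by norm_num) (Nat.pow_le_pow_right (by norm_num) (by omega))
    norm_num at h1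
    omega
  obtain ⟨j, hj⟩ : ∃ j, k = j + 1 := ⟨k - 1, by omega⟩
  have hj1 : 2 ^ 2 ^ (j + 1) < 6 * N := hmin j (by omega)
  have hm : (2 : ℕ) ^ (k + 1) = 2 * 2 ^ (j + 1) := by rw [hj, pow_succ]; ring
  refine ⟨k, 2 ^ (k + 1), rfl, ?_, hk1, ?_⟩
  · by_contra hlt
    have hle : n ≤ 2 ^ (j + 1) * 2 + 1 := by omega
    have h1 : (2 : ℕ) ^ n ≤ 2 ^ (2 ^ (j + 1) * 2 + 1) := Nat.pow_le_pow_right (by norm_num) hle
    rw [pow_succ, pow_mul] at h1
    have h2 : (2 ^ 2 ^ (j + 1)) ^ 2 < (6 * N) ^ 2 := Nat.pow_lt_pow_left hj1 (by norm_num)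
    have h3 : (6 * N) ^ 2 = 36 * N ^ 2 := by ring
    omega
  · rcases Nat.lt_or_ge 3 k with h | h
    · have hm16 : 16 ≤ 2 ^ (j + 1) := by
        calc 16 = 2 ^ 4 := by norm_num
          _ ≤ 2 ^ (j + 1) := Nat.pow_le_pow_right (by norm_num) (by omega)
      have h1 := pow2_ge _ hm16
      rw [hm]
      nlinarith
    · have : k = 3 := by omega
      rw [this]
      omega

theorem num3 : ∀ n N : ℕ, 72 ≤ N → 4 * N ^ 2 ≤ 3 ^ n →
    ∃ k t : ℕ, t = 2 ^ k ∧ t + 1 ≤ n ∧ 2 * N ≤ 3 ^ t ∧ t * (t + 1) ≤ N := by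
  intro n N hN hn
  classical
  have hex : ∃ k : ℕ, 2 * N ≤ 3 ^ 2 ^ k := by
    refine ⟨2 * N, ?_⟩
    have h1 : 2 * N < 2 ^ (2 * N) := Nat.lt_two_pow_self
    have h3 : (2 : ℕ) ^ (2 * N) < 3 ^ 2 ^ (2 * N) := Nat.lt_pow_self (by norm_num)
    omega
  set k := Nat.find hex with hk
  have hk1 : 2 * N ≤ 3 ^ 2 ^ k := Nat.find_spec hex
  have hmin : ∀ j, j < k → 3 ^ 2 ^ j < 2 * N := by
    intro j hj
    have := Nat.find_min hex hj
    omega
  have hk3 : 3 ≤ k := by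
    by_contra hlt
    have hle : k ≤ 2 := by omega
    have h1 : (3 : ℕ) ^ 2 ^ k ≤ 3 ^ 2 ^ 2 :=
      Nat.pow_le_pow_right (by norm_num) (Nat.pow_le_pow_right (by norm_num) (by omega))
    norm_num at h1
    omega
  obtain ⟨j, hj⟩ : ∃ j, k = j + 1 := ⟨k - 1, by omega⟩
  have hj1 : 3 ^ 2 ^ j < 2 * N := hmin j (by omega)
  have hm : (2 : ℕ) ^ k = 2 * 2 ^ j := by rw [hj, pow_succ]; ring
  refine ⟨k, 2 ^ k, rfl, ?_, hk1, ?_⟩
  · by_contra hlt
    have hle : n ≤ 2 ^ j * 2 := by omega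
    have h1 : (3 : ℕ) ^ n ≤ 3 ^ (2 ^ j * 2) := Nat.pow_le_pow_right (by norm_num) hle
    rw [pow_mul] at h1
    have h2 : (3 ^ 2 ^ j) ^ 2 < (2 * N) ^ 2 := Nat.pow_lt_pow_left hj1 (by norm_num)
    have h3 : (2 * N) ^ 2 = 4 * N ^ 2 := by ring
    omega
  · rcases Nat.lt_or_ge 3 k with h | h
    · have hm8 : 8 ≤ 2 ^ j := by
        calc 8 = 2 ^ 3 := by norm_num
          _ ≤ 2 ^ j := Nat.pow_le_pow_right (by norm_num) (by omega)
      have h1 := pow3_ge _ hm8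
      rw [hm]
      nlinarith
    · have : k = 3 := by omega
      rw [this]
      omega

theorem den3 : ∀ n N t x d : ℕ, 1 ≤ t → t + 1 ≤ n → t * (t + 1) ≤ N → n * x ≤ N * d →
    d ≤ t → x ≤ N / t * d := by
  intro n N t x d ht hn hN hx _
  have hq : t + 1 ≤ N / t := by
    rw [Nat.le_div_iff_mul_le (by omega)]
    calc (t + 1) * t = t * (t + 1) := by ring
      _ ≤ N := hN
  have hr : N % t < t := Nat.mod_lt _ (by omega)
  have hd : t * (N / t) + N % t = N := Nat.div_add_mod N t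
  have h1 : N ≤ n * (N / t) := by
    have h2 : (t + 1) * (N / t) ≤ n * (N / t) := Nat.mul_le_mul_right _ hn
    nlinarith
  have h3 : n * x ≤ n * (N / t * d) := by
    calc n * x ≤ N * d := hx
      _ ≤ n * (N / t) * d := Nat.mul_le_mul_right _ h1
      _ = n * (N / t * d) := by ring
  exact Nat.le_of_mul_le_mul_left h3 (by omega)

theorem NUM2 : S_NUM2 := num2

theorem NUM3 : S_NUM3 := num3

theorem DEN3 : S_DEN3 := den3

end Pool.Agent.H28.CU.T91
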